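import Pool.Agent.Helper82.CN.St

/-!
# CN module SCM: the second moment bound
-/

set_option autoImplicit false

namespace Pool.Agent.Helper96.CN

open Finset Pool.Agent.Helper82.CN

/-- probability that the bits of `M` vanish -/
lemma EE_van_SCM {ι : Type} [Fintype ι] [DecidableEq ι] (p : ℝ) (M : Finset ι)
    [∀ ω : ι → Bool, Decidable (∀ e ∈ M, ω e = false)] :
    EE p (fun ω : ι → Bool => if ∀ e ∈ M, ω e = false then (1 : ℝ) else 0) =
      (1 - p) ^ M.card := by
  unfold EE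
  have h1 : ∀ ω : ι → Bool, (∏ i, bw p (ω i)) * (if ∀ e ∈ M, ω e = false then (1 : ℝ) else 0) =
      ∏ i, (bw p (ω i) * if i ∈ M then (if ω i = false then (1 : ℝ) else 0) else 1) := by
    intro ω
    rw [Finset.prod_mul_distrib]
    congr 1
    by_cases h : ∀ e ∈ M, ω e = false
    · rw [if_pos h, Finset.prod_eq_one]
      intro i _
      by_cases hi : i ∈ M
      · rw [if_pos hi, if_pos (h i hi)]
      · rw [if_neg hi]
    · rw [if_neg h]
      push Not at h
      obtain ⟨e, he, he2⟩ := h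
      rw [Finset.prod_eq_zero (Finset.mem_univ e)]
      rw [if_pos he, if_neg he2]
  rw [Finset.sum_congr rfl (fun ω _ => h1 ω)]
  have h := (Finset.prod_univ_sum (fun _ : ι => (univ : Finset Bool))
    (fun i b => bw p b * if i ∈ M then (if b = false then (1 : ℝ) else 0) else 1)).symm
  simp only [Fintype.piFinset_univ] at h
  rw [h]
  have h2 : ∀ i : ι, ∑ b : Bool, (bw p b * if i ∈ M then (if b = false then (1 : ℝ) else 0) else 1) =
      if i ∈ M then 1 - p else 1 := by
    intro i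
    by_cases hi : i ∈ M
    · simp [hi, bw]
    · simp [hi, bw]
  rw [Finset.prod_congr rfl (fun i _ => h2 i), Finset.prod_ite_mem, Finset.univ_inter,
    Finset.prod_const]

/-- pairs inside `S` -/
def prs_SCM {n : ℕ} (S : Finset (Fin n)) : Finset (Sym2 (Fin n)) :=
  S.offDiag.image (fun x => s(x.1, x.2))

lemma card_prs_SCM {n : ℕ} (S : Finset (Fin n)) : (prs_SCM S).card = S.card.choose 2 :=
  Sym2.card_image_offDiag S

lemma mem_prs_SCM {n : ℕ} (S : Finset (Fin n)) (u v : Fin n) :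
    s(u, v) ∈ prs_SCM S ↔ u ∈ S ∧ v ∈ S ∧ u ≠ v := by
  unfold prs_SCM
  rw [Finset.mem_image]
  constructor
  · rintro ⟨⟨a, b⟩, hab, h⟩
    rw [Finset.mem_offDiag] at hab
    rw [Sym2.eq_iff] at h
    rcases h with ⟨h1, h2⟩ | ⟨h1, h2⟩
    · subst h1; subst h2; exact hab
    · subst h1; subst h2; exact ⟨hab.2.1, hab.1, fun h => hab.2.2 h.symm⟩
  · rintro ⟨h1, h2, h3⟩
    exact ⟨(u, v), Finset.mem_offDiag.2 ⟨h1, h2, h3⟩, rfl⟩

/-- the class of a colour -/
def cl_SCM {n k : ℕ} (c : Fin n → Fin k) (i : Fin k) : Finset (Fin n) :=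
  univ.filter (fun v => c v = i)

/-- the monochromatic pairs -/
def mo_SCM {n k : ℕ} (c : Fin n → Fin k) : Finset (Sym2 (Fin n)) :=
  univ.biUnion (fun i : Fin k => prs_SCM (cl_SCM c i))

lemma mem_mo_SCM {n k : ℕ} (c : Fin n → Fin k) (u v : Fin n) :
    s(u, v) ∈ mo_SCM c ↔ c u = c v ∧ u ≠ v := by
  unfold mo_SCM
  rw [Finset.mem_biUnion]
  constructor
  · rintro ⟨i, -, h⟩
    rw [mem_prs_SCM] at h
    unfold cl_SCM at h
    simp only [Finset.mem_filter, Finset.mem_univ, true_and] at h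
    exact ⟨h.1.trans h.2.1.symm, h.2.2⟩
  · rintro ⟨h1, h2⟩
    refine ⟨c u, Finset.mem_univ _, ?_⟩
    rw [mem_prs_SCM]
    unfold cl_SCM
    simp only [Finset.mem_filter, Finset.mem_univ, true_and]
    exact ⟨h1.symm, h2⟩

lemma card_mo_SCM {n k : ℕ} (c : Fin n → Fin k) :
    (mo_SCM c).card = ∑ i : Fin k, (cl_SCM c i).card.choose 2 := by
  unfold mo_SCM
  rw [Finset.card_biUnion]
  · exact Finset.sum_congr rfl fun i _ => card_prs_SCM _
  · intro i _ j _ hij
    rw [Function.onFun, Finset.disjoint_left]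
    intro e he1 he2
    induction e using Sym2.ind with
    | _ u v =>
      rw [mem_prs_SCM] at he1 he2
      unfold cl_SCM at he1 he2
      simp only [Finset.mem_filter, Finset.mem_univ, true_and] at he1 he2
      exact hij (he1.1.symm.trans he2.1)

lemma card_inter_SCM {n k : ℕ} (c c' : Fin n → Fin k) :
    (mo_SCM c ∩ mo_SCM c').card = ov c c' := by
  have h1 : mo_SCM c ∩ mo_SCM c' = (univ : Finset (Fin k × Fin k)).biUnion
      (fun x => prs_SCM (univ.filter (fun v => c v = x.1 ∧ c' v = x.2))) := by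
    ext e
    induction e using Sym2.ind with
    | _ u v =>
      rw [Finset.mem_inter, mem_mo_SCM, mem_mo_SCM, Finset.mem_biUnion]
      constructor
      · rintro ⟨⟨h1, h2⟩, h3, -⟩
        refine ⟨(c u, c' u), Finset.mem_univ _, ?_⟩
        rw [mem_prs_SCM, Finset.mem_filter, Finset.mem_filter]
        exact ⟨⟨Finset.mem_univ _, rfl, rfl⟩, ⟨Finset.mem_univ _, h1.symm, h3.symm⟩, h2⟩
      · rintro ⟨x, -, h⟩
        rw [mem_prs_SCM] at h
        simp only [Finset.mem_filter, Finset.mem_univ, true_and] at h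
        obtain ⟨⟨h1, h2⟩, ⟨h3, h4⟩, h5⟩ := h
        exact ⟨⟨h1.trans h3.symm, h5⟩, h2.trans h4.symm, h5⟩
  rw [h1, Finset.card_biUnion]
  · unfold ov
    rw [Fintype.sum_prod_type]
    refine Finset.sum_congr rfl fun i _ => Finset.sum_congr rfl fun j _ => ?_
    rw [card_prs_SCM]
  · intro x _ y _ hxy
    rw [Function.onFun, Finset.disjoint_left]
    intro e he1 he2
    induction e using Sym2.ind with
    | _ u v =>
      rw [mem_prs_SCM] at he1 he2
      simp only [Finset.mem_filter, Finset.mem_univ, true_and] at he1 he2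
      exact hxy (Prod.ext (he1.1.1.symm.trans he2.1.1) (he1.1.2.symm.trans he2.1.2))

/-- the number of monochromatic pairs of a balanced map -/
def mm_SCM (n k : ℕ) : ℕ := ∑ i : Fin k, (sz n k i).choose 2

lemma card_bal_SCM {n k : ℕ} {c : Fin n → Fin k} (hc : c ∈ Bal n k) :
    (mo_SCM c).card = mm_SCM n k := by
  classical
  rw [card_mo_SCM]
  unfold Bal at hc
  rw [Finset.mem_filter] at hc
  refine Finset.sum_congr rfl fun i _ => ?_
  have h := hc.2 i
  unfold cl_SCM
  rw [← h]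

lemma bal_nonempty_SCM (n k : ℕ) (hk : 1 ≤ k) : (Bal n k).Nonempty := by
  classical
  refine ⟨fun v => ⟨v.1 % k, Nat.mod_lt _ hk⟩, ?_⟩
  unfold Bal
  rw [Finset.mem_filter]
  refine ⟨Finset.mem_univ _, fun i => ?_⟩
  have h1 : ((univ : Finset (Fin n)).filter
      (fun v : Fin n => (⟨v.1 % k, Nat.mod_lt _ hk⟩ : Fin k) = i)).card =
      ((Finset.range n).filter (fun v => v ≡ i.1 [MOD k])).card := by
    refine Finset.card_bij (fun v _ => v.1) ?_ ?_ ?_
    · intro v hv
      rw [Finset.mem_filter] at hv ⊢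
      refine ⟨Finset.mem_range.2 v.2, ?_⟩
      have h2 := congrArg Fin.val hv.2
      simp only at h2
      rw [Nat.ModEq, Nat.mod_eq_of_lt i.2]
      exact h2
    · intro a _ b _ hab
      exact Fin.ext hab
    · intro v hv
      rw [Finset.mem_filter, Finset.mem_range] at hv
      refine ⟨⟨v, hv.1⟩, ?_, rfl⟩
      rw [Finset.mem_filter]
      refine ⟨Finset.mem_univ _, ?_⟩
      have h2 := hv.2
      rw [Nat.ModEq, Nat.mod_eq_of_lt i.2] at h2
      exact Fin.ext h2
  have h3 := Nat.count_modEq_card n (v := i.1) hk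
  rw [Nat.count_eq_card_filter_range, Nat.mod_eq_of_lt i.2] at h3
  unfold sz
  rw [← h3, ← h1]

lemma ch_le_SCM {n k : ℕ} (ω : Sym2 (Fin n) → Bool) (c : Fin n → Fin k)
    (h : ∀ e ∈ mo_SCM c, ω e = false) : ch (gr ω) ≤ k := by
  have hc : (gr ω).Colorable k := by
    refine ⟨SimpleGraph.Coloring.mk c ?_⟩
    intro u v huv heq
    obtain ⟨h1, h2⟩ := huv
    have h3 := h s(u, v) ((mem_mo_SCM c u v).2 ⟨heq, h1⟩)
    rw [h2] at h3
    exact absurd h3 (by decide)
  have h1 : (gr ω).chromaticNumber ≤ k := SimpleGraph.chromaticNumber_le_iff_colorable.2 hc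
  unfold ch
  exact_mod_cast ENat.toNat_le_of_le_natCast h1

open Classical in
theorem tSCM : StScm := by
  intro p n k hp0 hp1 hk hkn
  set G : (Sym2 (Fin n) → Bool) → ℝ := fun ω => if ch (gr ω) ≤ k then (1 : ℝ) else 0 with hG
  set I : (Fin n → Fin k) → (Sym2 (Fin n) → Bool) → ℝ :=
    fun c ω => if ∀ e ∈ mo_SCM c, ω e = false then (1 : ℝ) else 0 with hI
  set Z : (Sym2 (Fin n) → Bool) → ℝ := fun ω => ∑ c ∈ Bal n k, I c ω with hZ
  have hq : 0 < 1 - p := by linarith
  have hZG : ∀ ω, Z ω * G ω = Z ω := by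
    intro ω
    rw [hZ]
    simp only
    rw [Finset.sum_mul]
    refine Finset.sum_congr rfl fun c _ => ?_
    by_cases h : ∀ e ∈ mo_SCM c, ω e = false
    · have h1 : G ω = 1 := if_pos (ch_le_SCM ω c h)
      rw [h1, mul_one]
    · have h1 : I c ω = 0 := if_neg h
      rw [h1, zero_mul]
  have hGG : ∀ ω, G ω ^ 2 = G ω := by
    intro ω
    rw [hG]
    simp only
    split_ifs <;> norm_num
  have hEZ : EE p Z = (Bal n k).card * (1 - p) ^ mm_SCM n k := by
    rw [hZ, EE_sum]
    rw [Finset.sum_congr rfl (fun c hc => by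
      rw [hI, EE_van_SCM p (mo_SCM c), card_bal_SCM hc] :
      ∀ c ∈ Bal n k, EE p (I c) = (1 - p) ^ mm_SCM n k)]
    rw [Finset.sum_const, nsmul_eq_mul]
  have hII : ∀ c ∈ Bal n k, ∀ c' ∈ Bal n k, EE p (fun ω => I c ω * I c' ω) =
      (1 - p) ^ (2 * mm_SCM n k) * (1 / (1 - p)) ^ ov c c' := by
    intro c hc c' hc'
    have h1 : (fun ω => I c ω * I c' ω) = fun ω : Sym2 (Fin n) → Bool =>
        if ∀ e ∈ mo_SCM c ∪ mo_SCM c', ω e = false then (1 : ℝ) else 0 := by
      funext ω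
      rw [hI]
      simp only
      by_cases h : ∀ e ∈ mo_SCM c, ω e = false
      · by_cases h' : ∀ e ∈ mo_SCM c', ω e = false
        · rw [if_pos h, if_pos h', if_pos, mul_one]
          intro e he
          rcases Finset.mem_union.1 he with h2 | h2
          · exact h e h2
          · exact h' e h2
        · have h3 : ¬ ∀ e ∈ mo_SCM c ∪ mo_SCM c', ω e = false := fun h2 =>
            h' fun e he => h2 e (Finset.mem_union_right _ he)
          rw [if_neg h', if_neg h3, mul_zero]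
      · have h3 : ¬ ∀ e ∈ mo_SCM c ∪ mo_SCM c', ω e = false := fun h2 =>
          h fun e he => h2 e (Finset.mem_union_left _ he)
        rw [if_neg h, if_neg h3, zero_mul]
    rw [h1, EE_van_SCM]
    have h2 := Finset.card_union_add_card_inter (mo_SCM c) (mo_SCM c')
    rw [card_bal_SCM hc, card_bal_SCM hc', card_inter_SCM] at h2
    have h3 : (1 - p) ^ (2 * mm_SCM n k) =
        (1 - p) ^ (mo_SCM c ∪ mo_SCM c').card * (1 - p) ^ ov c c' := by
      rw [← pow_add, h2]
      congr 1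
      omega
    rw [h3, mul_assoc, ← mul_pow, mul_one_div_cancel hq.ne', one_pow, mul_one]
  have hEZ2 : EE p (fun ω => Z ω ^ 2) = (1 - p) ^ (2 * mm_SCM n k) *
      ∑ c ∈ Bal n k, ∑ c' ∈ Bal n k, (1 / (1 - p)) ^ ov c c' := by
    have h1 : (fun ω => Z ω ^ 2) = fun ω => ∑ c ∈ Bal n k, ∑ c' ∈ Bal n k, I c ω * I c' ω := by
      funext ω
      rw [hZ]
      simp only
      rw [sq, Finset.sum_mul_sum]
    rw [h1, EE_sum, Finset.mul_sum]
    refine Finset.sum_congr rfl fun c hc => ?_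
    rw [EE_sum, Finset.mul_sum]
    exact Finset.sum_congr rfl fun c' hc' => hII c hc c' hc'
  have hcs := EE_cs hp0 hp1.le Z G
  have e1 : (fun ω => Z ω * G ω) = Z := funext hZG
  have e2 : (fun ω => G ω ^ 2) = G := funext hGG
  rw [e1, e2, hEZ, hEZ2] at hcs
  have hB : (0 : ℝ) < (Bal n k).card := by
    exact_mod_cast Finset.card_pos.2 (bal_nonempty_SCM n k hk)
  have hqm : 0 < (1 - p) ^ (2 * mm_SCM n k) := pow_pos hq _
  have h5 : ((Bal n k).card : ℝ) ^ 2 ≤
      (∑ c ∈ Bal n k, ∑ c' ∈ Bal n k, (1 / (1 - p)) ^ ov c c') * EE p G := by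
    have h6 : (1 - p) ^ (2 * mm_SCM n k) * ((Bal n k).card : ℝ) ^ 2 ≤
        (1 - p) ^ (2 * mm_SCM n k) *
          ((∑ c ∈ Bal n k, ∑ c' ∈ Bal n k, (1 / (1 - p)) ^ ov c c') * EE p G) := by
      calc (1 - p) ^ (2 * mm_SCM n k) * ((Bal n k).card : ℝ) ^ 2 =
          ((Bal n k).card * (1 - p) ^ mm_SCM n k) ^ 2 := by ring
        _ ≤ _ := hcs
        _ = _ := by ring
    exact le_of_mul_le_mul_left h6 hqm
  unfold AA
  rw [div_mul_eq_mul_div, le_div_iff₀ (by positivity), one_mul]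
  exact h5

end Pool.Agent.Helper96.CN
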